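import Pool.Agent.Sq42_Ex.Cluster

/-!
# Squares and non-squares in rich neighbourhoods
-/

set_option autoImplicit false

namespace Pool.Agent.SqEx

open Nat

/-- modulo a prime `p ≡ 1 (mod 4 D !)` all the integers of absolute value at most `D` are squares -/
theorem isSquare_small {D p : ℕ} (hp : p.Prime) (hpD : D < p) (hmod : p ≡ 1 [MOD 4 * D !]) (a : ℤ)
    (ha : a.natAbs ≤ D) : IsSquare ((a : ℤ) : ZMod p) := by
  have : Fact p.Prime := ⟨hp⟩
  rcases eq_or_ne a 0 with h0 | h0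
  · subst h0
    exact ⟨0, by simp⟩
  · have hpos : 0 < a.natAbs := Int.natAbs_pos.2 h0
    have hne : ((a : ℤ) : ZMod p) ≠ 0 := by
      intro h
      rw [ZMod.intCast_zmod_eq_zero_iff_dvd] at h
      have h1 : p ∣ a.natAbs := by
        have := Int.natAbs_dvd_natAbs.2 h
        simpa using this
      have := Nat.le_of_dvd hpos h1
      omega
    rw [← legendreSym.eq_one_iff p hne, jacobiSym.legendreSym.to_jacobiSym]
    have hdvd : 4 * a.natAbs ∣ 4 * D ! := Nat.mul_dvd_mul_left 4 (Nat.dvd_factorial hpos ha)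
    have hm := hmod.of_dvd hdvd
    have hodd : Odd p := by
      have h2 : p ≡ 1 [MOD 2] := hm.of_dvd (Dvd.dvd.mul_right (by norm_num) _)
      rw [Nat.odd_iff]
      exact h2
    rw [jacobiSym.mod_right a hodd]
    have h3 : p % (4 * a.natAbs) = 1 := by
      have h4 : p % (4 * a.natAbs) = 1 % (4 * a.natAbs) := hm
      rw [h4]
      exact Nat.mod_eq_of_lt (by omega)
    rw [h3, jacobiSym.one_right]

/-- rich neighbourhoods from congruences -/
theorem rich_of (B D t : ℕ) (P : ℕ → ℕ) (hinj : Function.Injective P)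
    (hP : ∀ i, (P i).Prime ∧ B < P i) (y : ℕ)
    (hy : ∀ i, i < (2 * D + 1) * t →
      (y : ZMod (P i)) = (D : ZMod (P i)) - ((i % (2 * D + 1) : ℕ) : ZMod (P i))) :
    Rich B D t y := by
  classical
  intro z h1 h2
  obtain ⟨e, he⟩ : ∃ e, z + D = y + e := ⟨z + D - y, by omega⟩
  have he2 : e < 2 * D + 1 := by omega
  have hinj2 : Function.Injective (fun l => P (e + (2 * D + 1) * l)) := by
    intro l l' h
    have h3 := hinj h
    have h4 : (2 * D + 1) * l = (2 * D + 1) * l' := by omega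
    exact Nat.eq_of_mul_eq_mul_left (by omega) h4
  refine ⟨(Finset.range t).image (fun l => P (e + (2 * D + 1) * l)), ?_, ?_⟩
  · rw [Finset.card_image_of_injective _ hinj2, Finset.card_range]
  · intro p hp
    rw [Finset.mem_image] at hp
    obtain ⟨l, hl, rfl⟩ := hp
    rw [Finset.mem_range] at hl
    set i := e + (2 * D + 1) * l with hi
    refine ⟨(hP i).1, (hP i).2, ?_⟩
    have hlt : i < (2 * D + 1) * t := by
      calc i < (2 * D + 1) * l + (2 * D + 1) := by omega
        _ = (2 * D + 1) * (l + 1) := by ring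
        _ ≤ (2 * D + 1) * t := Nat.mul_le_mul_left _ hl
    have h3 := hy i hlt
    have hmod : i % (2 * D + 1) = e := by
      rw [hi, Nat.add_mul_mod_self_left, Nat.mod_eq_of_lt he2]
    rw [hmod] at h3
    rw [← ZMod.natCast_eq_zero_iff]
    have h4 : (z : ZMod (P i)) + (D : ZMod (P i)) = (y : ZMod (P i)) + (e : ZMod (P i)) := by
      exact_mod_cast congrArg (fun n : ℕ => (n : ZMod (P i))) he
    rw [h3] at h4
    have h5 : (z : ZMod (P i)) = (D : ZMod (P i)) - (e : ZMod (P i)) + (e : ZMod (P i))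
        - (D : ZMod (P i)) := by rw [← h4]; ring
    rw [h5]; ring

/-- There is a residue class, given by a square, all of whose elements have rich neighbourhoods. -/
theorem rich_class (B D t : ℕ) : ∃ M n1 : ℕ, 0 < M ∧ B ! ∣ M ∧
    ∀ y, y ≡ n1 * n1 [MOD M] → Rich B D t y := by
  classical
  set k0 := 4 * D ! with hk0
  have hk0' : k0 ≠ 0 := by
    have := Nat.factorial_pos D
    omega
  have hinf := Nat.infinite_setOfPred_prime_modEq_one hk0'
  set Q0 : ℕ → ℕ := Nat.nth (fun p => p.Prime ∧ p ≡ 1 [MOD k0]) with hQ0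
  have hmono : StrictMono Q0 := Nat.nth_strictMono hinf
  have hmem : ∀ i, (Q0 i).Prime ∧ Q0 i ≡ 1 [MOD k0] := fun i => Nat.nth_mem_of_infinite hinf i
  let P : ℕ → ℕ := fun i => Q0 (B + D + 1 + i)
  have hPinj : Function.Injective P := fun i j h => by
    have := hmono.injective h
    omega
  have hPlt : ∀ i, B + D < P i := fun i => by
    have : B + D + 1 + i ≤ Q0 (B + D + 1 + i) := hmono.le_apply
    show B + D < Q0 (B + D + 1 + i)
    omega
  have hPp : ∀ i, (P i).Prime := fun i => (hmem _).1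
  -- roots
  have hroot : ∀ i, ∃ r : ℕ, ((r * r : ℕ) : ZMod (P i)) =
      (D : ZMod (P i)) - ((i % (2 * D + 1) : ℕ) : ZMod (P i)) := by
    intro i
    have : Fact (P i).Prime := ⟨hPp i⟩
    have hlt : i % (2 * D + 1) < 2 * D + 1 := Nat.mod_lt _ (by omega)
    obtain ⟨r, hr⟩ := isSquare_small (hPp i) (by have := hPlt i; omega) (hmem _).2
      ((D : ℤ) - ((i % (2 * D + 1) : ℕ) : ℤ)) (by omega)
    refine ⟨r.val, ?_⟩
    rw [Nat.cast_mul, ZMod.natCast_zmod_val, ← hr, Int.cast_sub, Int.cast_natCast,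
      Int.cast_natCast]
  choose r hr using hroot
  obtain ⟨n1, hn1⟩ := Nat.chineseRemainderOfFinset r P (Finset.range ((2 * D + 1) * t))
    (fun i _ => (hPp i).ne_zero) (by
      intro i _ j _ hij
      exact (Nat.coprime_primes (hPp i) (hPp j)).2 fun h => hij (hPinj h))
  set Pr := ∏ i ∈ Finset.range ((2 * D + 1) * t), P i with hPr
  have hPrpos : 0 < Pr := Finset.prod_pos fun i _ => (hPp i).pos
  refine ⟨Pr * B !, n1, Nat.mul_pos hPrpos (Nat.factorial_pos B), Dvd.intro_left _ rfl, ?_⟩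
  intro y hy
  refine rich_of B D t P hPinj (fun i => ⟨hPp i, by have := hPlt i; omega⟩) _ fun i hi => ?_
  have h1 : P i ∣ Pr := Finset.dvd_prod_of_mem _ (Finset.mem_range.2 hi)
  have h2 : y ≡ n1 * n1 [MOD P i] := hy.of_dvd (Dvd.dvd.mul_right h1 _)
  have h3 : n1 ≡ r i [MOD P i] := hn1 i (Finset.mem_range.2 hi)
  have h4 : (y : ZMod (P i)) = ((r i * r i : ℕ) : ZMod (P i)) :=
    (ZMod.natCast_eq_natCast_iff _ _ _).2 (h2.trans (h3.mul h3))
  rw [h4, hr i]

/-- A set which is periodic on rich numbers differs from the set of squares at at least `c √N` numbers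
up to `N`. -/
theorem count_errors (E : Set ℕ) (B D t T : ℕ)
    (h : ∀ y y', T ≤ y → T ≤ y' → y ≡ y' [MOD B !] → Rich B D t y → Rich B D t y' →
      (y ∈ E ↔ y' ∈ E)) :
    ∃ c : ℝ, 0 < c ∧ ∃ N0 : ℕ, ∀ N : ℕ, N0 ≤ N →
      c * Real.sqrt N ≤ (({n : ℕ | n ≤ N ∧ ¬ (n ∈ E ↔ IsSquare n)}.ncard : ℕ) : ℝ) := by
  classical
  obtain ⟨M, n1, hM, hBM, hrich⟩ := rich_class B D t
  -- the two families
  let q : ℕ → ℕ := fun s => (n1 + M * (s + 1)) * (n1 + M * (s + 1))
  have hq : ∀ s, q s = (n1 + M * (s + 1)) * (n1 + M * (s + 1)) := fun s => rfl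
  have hmodq : ∀ s, q s ≡ n1 * n1 [MOD M] := by
    intro s
    have h1 : n1 + M * (s + 1) ≡ n1 [MOD M] := by
      have h2 : M * (s + 1) ≡ 0 [MOD M] := (Nat.modEq_zero_iff_dvd).2 (Dvd.intro _ rfl)
      exact (Nat.ModEq.refl n1).add h2
    exact h1.mul h1
  have hmodq' : ∀ s, q s + M ≡ n1 * n1 [MOD M] := by
    intro s
    have h2 : M ≡ 0 [MOD M] := (Nat.modEq_zero_iff_dvd).2 dvd_rfl
    exact (hmodq s).add h2
  have hqs : ∀ s, s < q s := by
    intro s
    have h1 : s + 1 ≤ n1 + M * (s + 1) := by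
      have := Nat.le_mul_of_pos_left (s + 1) hM
      omega
    have h2 : n1 + M * (s + 1) ≤ q s := Nat.le_mul_self _
    omega
  have hnsq : ∀ s, ¬ IsSquare (q s + M) := by
    rintro s ⟨r, hr⟩
    have hb : M ≤ n1 + M * (s + 1) := by
      have : M * (s + 1) = M * s + M := by ring
      omega
    set a := n1 + M * (s + 1) with ha
    have hqa : q s = a * a := rfl
    rw [hqa] at hr
    have h1 : a < r := by
      by_contra hc
      have := Nat.mul_le_mul (not_lt.1 hc) (not_lt.1 hc)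
      omega
    have h2 := Nat.mul_le_mul (show a + 1 ≤ r from h1) (show a + 1 ≤ r from h1)
    have h3 : (a + 1) * (a + 1) = a * a + 2 * a + 1 := by ring
    omega
  have hfull : ∀ y y', T ≤ y → T ≤ y' → y ≡ n1 * n1 [MOD M] → y' ≡ n1 * n1 [MOD M] →
      (y ∈ E ↔ y' ∈ E) := fun y y' h1 h2 h3 h4 =>
    h y y' h1 h2 ((h3.trans h4.symm).of_dvd hBM) (hrich y h3) (hrich y' h4)
  -- errors
  obtain ⟨δ, hδ, herr⟩ : ∃ δ, δ ≤ M ∧ ∀ s, T ≤ s → ¬ (q s + δ ∈ E ↔ IsSquare (q s + δ)) := by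
    by_cases h0 : ∃ y0, T ≤ y0 ∧ y0 ≡ n1 * n1 [MOD M] ∧ y0 ∈ E
    · obtain ⟨y0, h1, h2, h3⟩ := h0
      refine ⟨M, le_rfl, fun s hs h4 => hnsq s (h4.1 ?_)⟩
      exact (hfull y0 _ h1 (by have := hqs s; omega) h2 (hmodq' s)).1 h3
    · push Not at h0
      refine ⟨0, Nat.zero_le _, fun s hs h4 => ?_⟩
      rw [add_zero] at h4
      exact h0 (q s) (by have := hqs s; omega) (hmodq s) (h4.2 ⟨_, rfl⟩)
  have hqmono : StrictMono q := by
    refine strictMono_nat_of_lt_succ fun s => ?_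
    have h1 : n1 + M * (s + 1) < n1 + M * (s + 1 + 1) := by
      have : M * (s + 1 + 1) = M * (s + 1) + M := by ring
      omega
    exact Nat.mul_self_lt_mul_self h1
  have hinj : Function.Injective (fun s => q s + δ) := fun s s' hs => by
    have : q s = q s' := by simpa using hs
    exact hqmono.injective this
  have hqb : ∀ s, q s + δ ≤ (n1 + M * (s + 2)) * (n1 + M * (s + 2)) := by
    intro s
    set a := n1 + M * (s + 1) with ha
    have h1 : n1 + M * (s + 2) = a + M := by rw [ha]; ring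
    have h2 : q s = a * a := rfl
    have h3 : M ≤ a := by
      have : M * (s + 1) = M * s + M := by ring
      omega
    rw [h1, h2]
    have h4 : (a + M) * (a + M) = a * a + 2 * (a * M) + M * M := by ring
    have h5 : M ≤ a * M := Nat.le_mul_of_pos_left _ (by omega)
    omega
  -- counting
  refine ⟨1 / (8 * M), by positivity, (2 * (n1 + M * (T + 1)) + 4 * M + 1) ^ 2, fun N hN => ?_⟩
  set r := Nat.sqrt N with hr
  have hr1 : 2 * (n1 + M * (T + 1)) + 4 * M + 1 ≤ r := Nat.le_sqrt'.2 hN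
  have hr2 : r * r ≤ N := Nat.sqrt_le N
  have hr3 : N < (r + 1) * (r + 1) := Nat.lt_succ_sqrt N
  set k := r / (2 * M) with hk
  have hk1 : k * (2 * M) ≤ r := Nat.div_mul_le_self _ _
  have hk2 : r < 2 * M * (k + 1) := Nat.lt_mul_div_succ r (by omega)
  have hk3 : 1 ≤ k := by
    rw [hk, Nat.one_le_div_iff (by omega)]
    omega
  have hcard : ((Finset.Ico T (T + k)).image (fun s => q s + δ)).card = k := by
    rw [Finset.card_image_of_injective _ hinj, Nat.card_Ico, Nat.add_sub_cancel_left]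
  have hsub : (((Finset.Ico T (T + k)).image (fun s => q s + δ) : Finset ℕ) : Set ℕ) ⊆
      {n : ℕ | n ≤ N ∧ ¬ (n ∈ E ↔ IsSquare n)} := by
    intro x hx
    rw [Finset.mem_coe, Finset.mem_image] at hx
    obtain ⟨s, hs, rfl⟩ := hx
    rw [Finset.mem_Ico] at hs
    refine ⟨?_, herr s hs.1⟩
    refine (hqb s).trans (le_trans ?_ hr2)
    have h1 : M * (s + 2) ≤ M * (T + 1 + k) := Nat.mul_le_mul_left _ (by omega)
    have h2 : M * (T + 1 + k) = M * (T + 1) + M * k := by ring
    have h3 : k * (2 * M) = 2 * (M * k) := by ring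
    exact Nat.mul_self_le_mul_self (by omega)
  have hfin : {n : ℕ | n ≤ N ∧ ¬ (n ∈ E ↔ IsSquare n)}.Finite :=
    (Set.finite_Iic N).subset fun n hn => hn.1
  have hle := Set.ncard_le_ncard hsub hfin
  rw [Set.ncard_coe_finset, hcard] at hle
  have hle' : (k : ℝ) ≤ (({n : ℕ | n ≤ N ∧ ¬ (n ∈ E ↔ IsSquare n)}.ncard : ℕ) : ℝ) := by
    exact_mod_cast hle
  refine le_trans ?_ hle'
  have hs1 : Real.sqrt N ≤ (r : ℝ) + 1 := by
    rw [Real.sqrt_le_left (by positivity)]
    have : (N : ℝ) < ((r : ℝ) + 1) * ((r : ℝ) + 1) := by exact_mod_cast hr3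
    nlinarith
  have hs2 : (r : ℝ) + 1 ≤ 8 * M * k := by
    have h1 : r + 1 ≤ 8 * M * k := by
      have h4 : 2 * M * (k + 1) = 2 * (M * k) + 2 * M := by ring
      have h5 : 8 * M * k = 8 * (M * k) := by ring
      have h6 : M ≤ M * k := Nat.le_mul_of_pos_right _ (by omega)
      omega
    exact_mod_cast h1
  have hM' : (0 : ℝ) < 8 * M := by positivity
  rw [div_mul_eq_mul_div, one_mul, div_le_iff₀ hM']
  linarith

end Pool.Agent.SqEx
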