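import Pool.Agent.Sq42_Ex.Cluster

/-!
# Existential formulas and similarities
-/

set_option autoImplicit false

namespace Pool.Agent.SqEx

open FirstOrder FirstOrder.Language

variable {L : FirstOrder.Language.{0, 0}} [L.Structure ℕ]

/-- the language has only unary functions, interpreted as the successor, and only binary relations,
interpreted as coprimality -/
structure Only (L : FirstOrder.Language.{0, 0}) [L.Structure ℕ] : Prop where
  fn : ∀ n, L.Functions n → n = 1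
  rn : ∀ n, L.Relations n → n = 2
  hs : ∀ (f : L.Functions 1) (v : Fin 1 → ℕ), Structure.funMap f v = v 0 + 1
  hr : ∀ (r : L.Relations 2) (v : Fin 2 → ℕ), Structure.RelMap r v ↔ Nat.Coprime (v 0) (v 1)

theorem term_form (o : Only L) {β : Type} (t : L.Term β) :
    ∃ (s : β) (a : ℕ), ∀ w : β → ℕ, t.realize w = w s + a := by
  induction t with
  | var b => exact ⟨b, 0, fun w => rfl⟩
  | func f ts ih =>
    obtain rfl := o.fn _ f
    obtain ⟨s, a, h⟩ := ih 0
    refine ⟨s, a + 1, fun w => ?_⟩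
    rw [Term.realize_func, o.hs, h]
    ring

/-- the free variable in a term -/
def fv {α : Type} {n : ℕ} : α ⊕ Fin n → Finset α := Sum.elim (fun a => {a}) (fun _ => ∅)

theorem qf_sim (o : Only L) {α : Type} {n : ℕ} {φ : L.BoundedFormula α n} (h : φ.IsQF) :
    ∃ (K : ℕ) (V0 : Finset α), ∀ (v v' : α → ℕ) (xs : Fin n → ℕ) (f : ℕ → ℕ) (S : Set ℕ),
      (∀ a ∈ V0, v a ∈ S) → (∀ i, xs i ∈ S) → Sim K S f → (∀ a ∈ V0, v' a = f (v a)) →
      (φ.Realize v' (f ∘ xs) ↔ φ.Realize v xs) := by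
  classical
  have key : ∀ (V0 : Finset α) (v v' : α → ℕ) (xs : Fin n → ℕ) (f : ℕ → ℕ) (S : Set ℕ),
      (∀ a ∈ V0, v a ∈ S) → (∀ i, xs i ∈ S) → (∀ a ∈ V0, v' a = f (v a)) →
      ∀ s : α ⊕ Fin n, fv s ⊆ V0 → Sum.elim v xs s ∈ S ∧
        Sum.elim v' (f ∘ xs) s = f (Sum.elim v xs s) := by
    intro V0 v v' xs f S h1 h2 h3 s hs
    rcases s with a | i
    · have ha : a ∈ V0 := hs (by simp [fv])
      exact ⟨h1 a ha, h3 a ha⟩
    · exact ⟨h2 i, rfl⟩
  induction h with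
  | falsum => exact ⟨0, ∅, fun _ _ _ _ _ _ _ _ _ => Iff.rfl⟩
  | of_isAtomic h =>
    cases h with
    | equal t₁ t₂ =>
      obtain ⟨s₁, a₁, h₁⟩ := term_form o t₁
      obtain ⟨s₂, a₂, h₂⟩ := term_form o t₂
      refine ⟨max a₁ a₂, fv s₁ ∪ fv s₂, ?_⟩
      intro v v' xs f S hv hxs hS hv'
      obtain ⟨k1, k1'⟩ := key _ v v' xs f S hv hxs hv' s₁ Finset.subset_union_left
      obtain ⟨k2, k2'⟩ := key _ v v' xs f S hv hxs hv' s₂ Finset.subset_union_right
      rw [BoundedFormula.realize_bdEqual, BoundedFormula.realize_bdEqual, h₁, h₂, h₁, h₂, k1', k2']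
      exact ((hS _ k1 _ k2 a₁ (le_max_left _ _) a₂ (le_max_right _ _)).1).symm
    | rel R ts =>
      obtain rfl := o.rn _ R
      obtain ⟨s₁, a₁, h₁⟩ := term_form o (ts 0)
      obtain ⟨s₂, a₂, h₂⟩ := term_form o (ts 1)
      refine ⟨max a₁ a₂, fv s₁ ∪ fv s₂, ?_⟩
      intro v v' xs f S hv hxs hS hv'
      obtain ⟨k1, k1'⟩ := key _ v v' xs f S hv hxs hv' s₁ Finset.subset_union_left
      obtain ⟨k2, k2'⟩ := key _ v v' xs f S hv hxs hv' s₂ Finset.subset_union_right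
      rw [BoundedFormula.realize_rel, BoundedFormula.realize_rel, o.hr, o.hr, h₁, h₂, h₁, h₂,
        k1', k2']
      exact ((hS _ k1 _ k2 a₁ (le_max_left _ _) a₂ (le_max_right _ _)).2).symm
  | imp h₁ h₂ ih₁ ih₂ =>
    obtain ⟨K₁, V₁, g₁⟩ := ih₁
    obtain ⟨K₂, V₂, g₂⟩ := ih₂
    refine ⟨max K₁ K₂, V₁ ∪ V₂, ?_⟩
    intro v v' xs f S hv hxs hS hv'
    rw [BoundedFormula.realize_imp, BoundedFormula.realize_imp,
      g₁ v v' xs f S (fun a ha => hv a (Finset.mem_union_left _ ha)) hxs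
        (hS.mono (le_max_left _ _) subset_rfl) (fun a ha => hv' a (Finset.mem_union_left _ ha)),
      g₂ v v' xs f S (fun a ha => hv a (Finset.mem_union_right _ ha)) hxs
        (hS.mono (le_max_right _ _) subset_rfl) (fun a ha => hv' a (Finset.mem_union_right _ ha))]

theorem ex_sim (o : Only L) {α : Type} {n : ℕ} {φ : L.BoundedFormula α n} (h : φ.IsExistential) :
    ∃ (K m : ℕ) (V0 : Finset α), ∀ (v : α → ℕ) (xs : Fin n → ℕ), φ.Realize v xs →
      ∃ Z : Finset ℕ, Z.card ≤ m ∧ ∀ (f : ℕ → ℕ) (v' : α → ℕ),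
        Sim K ({u | u ∈ Z} ∪ v '' {a | a ∈ V0} ∪ Set.range xs) f → (∀ a ∈ V0, v' a = f (v a)) →
        φ.Realize v' (f ∘ xs) := by
  classical
  induction h with
  | of_isQF h =>
    obtain ⟨K, V0, g⟩ := qf_sim o h
    refine ⟨K, 0, V0, fun v xs hφ => ⟨∅, le_rfl, fun f v' hS hv' => ?_⟩⟩
    refine (g v v' xs f _ ?_ ?_ hS hv').2 hφ
    · intro a ha
      exact Or.inl (Or.inr ⟨a, ha, rfl⟩)
    · intro i
      exact Or.inr ⟨i, rfl⟩
  | ex h ih =>
    obtain ⟨K, m, V0, g⟩ := ih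
    refine ⟨K, m + 1, V0, fun v xs hφ => ?_⟩
    rw [BoundedFormula.realize_ex] at hφ
    obtain ⟨a, ha⟩ := hφ
    obtain ⟨Z, hZ, g'⟩ := g v (Fin.snoc xs a) ha
    refine ⟨insert a Z, (Finset.card_insert_le _ _).trans (by omega), fun f v' hS hv' => ?_⟩
    rw [BoundedFormula.realize_ex]
    refine ⟨f a, ?_⟩
    have := g' f v' (hS.mono le_rfl ?_) hv'
    · rwa [Fin.comp_snoc] at this
    · rintro u ((hu | hu) | ⟨i, rfl⟩)
      · exact Or.inl (Or.inl (Finset.mem_insert_of_mem hu))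
      · exact Or.inl (Or.inr hu)
      · refine Fin.lastCases ?_ (fun j => ?_) i
        · rw [Fin.snoc_last]
          exact Or.inl (Or.inl (Finset.mem_insert_self _ _))
        · rw [Fin.snoc_castSucc]
          exact Or.inr ⟨j, rfl⟩

/-- the set defined by a formula with one variable and parameters (the variable `Sum.inr c` stands
for the number `c`) -/
def DefSet (φ : L.Formula (Unit ⊕ ℕ)) : Set ℕ :=
  {n | φ.Realize (Sum.elim (fun _ => n) id)}

/-- existential formulas with parameters are preserved by `Trans` -/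
theorem ex_trans (o : Only L) (φ : L.Formula (Unit ⊕ ℕ)) (h : φ.IsExistential) :
    ∃ K m C : ℕ, ∀ y y', Trans K m C y y' → y ∈ DefSet φ → y' ∈ DefSet φ := by
  classical
  obtain ⟨K, m, V0, g⟩ := ex_sim o h
  refine ⟨K, m, V0.sup (Sum.elim (fun _ => 0) id), fun y y' hT hy => ?_⟩
  obtain ⟨Z, hZ, g'⟩ := g _ _ hy
  obtain ⟨f, hf1, hf2, hf3⟩ := hT Z hZ
  have hle : ∀ c, (Sum.inr c : Unit ⊕ ℕ) ∈ V0 → c ≤ V0.sup (Sum.elim (fun _ => 0) id) := by
    intro c hc
    exact Finset.le_sup (f := Sum.elim (fun _ => 0) id) hc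
  have := g' f (Sum.elim (fun _ => y') id) (hf3.mono le_rfl ?_) ?_
  · have e : ∀ w w' : Fin 0 → ℕ, BoundedFormula.Realize φ (Sum.elim (fun _ => y') id) w →
        BoundedFormula.Realize φ (Sum.elim (fun _ => y') id) w' := fun w w' hw => by
      rwa [Subsingleton.elim w' w]
    exact e _ _ this
  · rintro u ((hu | ⟨a, ha, rfl⟩) | ⟨i, rfl⟩)
    · exact Or.inl (Or.inl hu)
    · rcases a with a | c
      · exact Or.inl (Or.inr rfl)
      · exact Or.inr (hle c ha)
    · exact i.elim0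
  · intro a ha
    rcases a with a | c
    · exact hf1.symm
    · exact (hf2 c (hle c ha)).symm

/-- agreement on rich numbers -/
theorem boolean_rich (o : Only L) (A : Set ℕ)
    (hA : A ∈ BooleanSubalgebra.closure {A : Set ℕ | ∃ φ : L.Formula (Unit ⊕ ℕ),
      φ.IsExistential ∧ A = DefSet φ}) :
    ∃ B D t T : ℕ, ∀ y y', T ≤ y → T ≤ y' → y ≡ y' [MOD Nat.factorial B] → Rich B D t y →
      Rich B D t y' → (y ∈ A ↔ y' ∈ A) := by
  have key : ∃ K m C : ℕ, ∀ y y', Trans K m C y y' → Trans K m C y' y → (y ∈ A ↔ y' ∈ A) := by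
    induction hA using BooleanSubalgebra.closure_bot_sup_induction with
    | mem A hA =>
      obtain ⟨φ, h, rfl⟩ := hA
      obtain ⟨K, m, C, g⟩ := ex_trans o φ h
      exact ⟨K, m, C, fun y y' h1 h2 => ⟨g y y' h1, g y' y h2⟩⟩
    | bot => exact ⟨0, 0, 0, fun _ _ _ _ => Iff.rfl⟩
    | sup A _ A' _ ih ih' =>
      obtain ⟨K, m, C, g⟩ := ih
      obtain ⟨K', m', C', g'⟩ := ih'
      refine ⟨max K K', max m m', max C C', fun y y' h1 h2 => ?_⟩
      have e1 := g y y' (h1.mono (le_max_left _ _) (le_max_left _ _) (le_max_left _ _))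
        (h2.mono (le_max_left _ _) (le_max_left _ _) (le_max_left _ _))
      have e2 := g' y y' (h1.mono (le_max_right _ _) (le_max_right _ _) (le_max_right _ _))
        (h2.mono (le_max_right _ _) (le_max_right _ _) (le_max_right _ _))
      exact or_congr e1 e2
    | compl A _ ih =>
      obtain ⟨K, m, C, g⟩ := ih
      exact ⟨K, m, C, fun y y' h1 h2 => not_congr (g y y' h1 h2)⟩
  obtain ⟨K, m, C, g⟩ := key
  obtain ⟨B, D, t, T, h⟩ := cluster K m C
  exact ⟨B, D, t, T, fun y y' h1 h2 h3 h4 h5 =>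
    g y y' (h y y' h1 h2 h3 h5) (h y' y h2 h1 h3.symm h4)⟩

end Pool.Agent.SqEx
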