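import Pool.Agent.Sq42_Ex.Ext

/-!
# Moving one point of a finite set

`Sim K S f`: the map `f` preserves, on the set `S`, the atomic relations `u + a = v + a'` and
`u + a ⊥ v + a'` with `a, a' ≤ K`.  The cluster lemma: for given `K`, `m` and `C`, any two large
numbers `y` and `y'` which are congruent modulo `B !` and such that all numbers near `y'` have many
prime divisors above `B` have the property that every finite set of at most `m` points together
with `y` and the numbers up to `C` can be mapped by a map `f` with `f y = y'`, `f c = c` for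
`c ≤ C`, preserving these atomic relations.
-/

set_option autoImplicit false

namespace Pool.Agent.SqEx

open Nat

/-- `f` preserves the atomic relations with offsets up to `K` on `S` -/
def Sim (K : ℕ) (S : Set ℕ) (f : ℕ → ℕ) : Prop :=
  ∀ u ∈ S, ∀ v ∈ S, ∀ a ≤ K, ∀ a' ≤ K, (u + a = v + a' ↔ f u + a = f v + a') ∧
    (Nat.Coprime (u + a) (v + a') ↔ Nat.Coprime (f u + a) (f v + a'))

theorem Sim.mono {K K' : ℕ} {S S' : Set ℕ} {f : ℕ → ℕ} (h : Sim K' S' f) (hK : K ≤ K')
    (hS : S ⊆ S') : Sim K S f := fun u hu v hv a ha a' ha' =>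
  h u (hS hu) v (hS hv) a (ha.trans hK) a' (ha'.trans hK)

/-- every number near `y` has at least `t` prime factors above `B` -/
def Rich (B D t y : ℕ) : Prop :=
  ∀ z, z ≤ y + D → y ≤ z + D → ∃ P : Finset ℕ, t ≤ P.card ∧ ∀ p ∈ P, p.Prime ∧ B < p ∧ p ∣ z

/-- `y` can be replaced by `y'` for sets of `m` points -/
def Trans (K m C y y' : ℕ) : Prop :=
  ∀ Z : Finset ℕ, Z.card ≤ m → ∃ f : ℕ → ℕ, f y = y' ∧ (∀ c ≤ C, f c = c) ∧
    Sim K ({u | u ∈ Z} ∪ {y} ∪ {u | u ≤ C}) f

theorem Trans.mono {K K' m m' C C' y y' : ℕ} (h : Trans K' m' C' y y') (hK : K ≤ K') (hm : m ≤ m')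
    (hC : C ≤ C') : Trans K m C y y' := by
  intro Z hZ
  obtain ⟨f, h1, h2, h3⟩ := h Z (hZ.trans hm)
  refine ⟨f, h1, fun c hc => h2 c (hc.trans hC), h3.mono hK ?_⟩
  rintro u ((hu | hu) | hu)
  · exact Or.inl (Or.inl hu)
  · exact Or.inl (Or.inr hu)
  · exact Or.inr (le_trans (show u ≤ C from hu) hC)

/-- the extension lemma for a finite set -/
theorem ext_finset (m W B : ℕ) (hB : W + 2 ≤ B) (b0 : ℕ) (R : Finset ℕ)
    (hR : R.card ≤ m) (y' : ℕ) (hy : y' ≡ b0 [MOD B !]) (hy' : 0 < y')
    (hP : ∀ x ≤ W, ∃ P : Finset ℕ, (m + 1) * (W + 1) ≤ P.card ∧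
      ∀ p ∈ P, p.Prime ∧ B < p ∧ p ∣ y' + x) :
    ∃ F : ℕ → ℕ, F b0 = y' ∧ (∀ r ∈ insert b0 R, F r ≡ r [MOD B !] ∧ y' ≤ F r) ∧
      ∀ r ∈ insert b0 R, ∀ r' ∈ insert b0 R, r ≠ r' → (F r + W < F r' ∨ F r' + W < F r) ∧
        ∀ x ≤ W, ∀ x' ≤ W, (Nat.Coprime (r + x) (r' + x') ↔ Nat.Coprime (F r + x) (F r' + x')) := by
  classical
  set L : List ℕ := b0 :: R.toList with hL
  have hmemL : ∀ r, r ∈ L ↔ r ∈ insert b0 R := fun r => by simp [hL]
  have hlen : L.length = R.card + 1 := by simp [hL]
  obtain ⟨b', h0, h1, h2, h3⟩ := ext_coord m W B hB (fun i => L.getD i 0) y' (by simpa [hL] using hy)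
    hy' hP
  have hmono : StrictMono b' := strictMono_nat_of_lt_succ fun k => by
    have := h2 k (k + 1) (Nat.lt_succ_self k); omega
  have hidx : ∀ r ∈ L, L.idxOf r ≤ m ∧ L.getD (L.idxOf r) 0 = r := by
    intro r hr
    have hlt : L.idxOf r < L.length := List.idxOf_lt_length_iff.2 hr
    refine ⟨by omega, ?_⟩
    rw [List.getD_eq_getElem _ _ hlt]
    exact List.getElem_idxOf hlt
  refine ⟨fun r => b' (L.idxOf r), ?_, ?_, ?_⟩
  · simp [hL, h0]
  · intro r hr
    rw [← hmemL] at hr
    obtain ⟨i1, i2⟩ := hidx r hr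
    refine ⟨?_, ?_⟩
    · have := h1 (L.idxOf r) i1
      rwa [i2] at this
    · have : b' 0 ≤ b' (L.idxOf r) := hmono.monotone (Nat.zero_le _)
      rwa [h0] at this
  · intro r hr r' hr' hne
    rw [← hmemL] at hr hr'
    obtain ⟨i1, i2⟩ := hidx r hr
    obtain ⟨j1, j2⟩ := hidx r' hr'
    rcases Nat.lt_trichotomy (L.idxOf r) (L.idxOf r') with hlt | heq | hlt
    · refine ⟨Or.inl (h2 _ _ hlt), fun x hx x' hx' => ?_⟩
      have := h3 _ _ hlt j1 x hx x' hx'
      rwa [i2, j2] at this
    · exfalso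
      apply hne
      rw [← i2, ← j2, heq]
    · refine ⟨Or.inr (h2 _ _ hlt), fun x hx x' hx' => ?_⟩
      have := h3 _ _ hlt i1 x' hx' x hx
      rw [i2, j2] at this
      rw [Nat.coprime_comm, this, Nat.coprime_comm]

/-- pigeonhole for the scales -/
theorem exists_scale (U : Finset ℕ) (m g0 : ℕ) (hU : U.card ≤ m) :
    ∃ s, s ≤ m * m ∧ ∀ u ∈ U, ∀ v ∈ U, u + g0 * 3 ^ s < v → u + g0 * 3 ^ (s + 1) < v := by
  classical
  by_contra hcon
  push Not at hcon
  have : ∀ s ∈ Finset.range (m * m + 1), ∃ q ∈ U ×ˢ U, q.1 + g0 * 3 ^ s < q.2 ∧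
      q.2 ≤ q.1 + g0 * 3 ^ (s + 1) := by
    intro s hs
    rw [Finset.mem_range] at hs
    obtain ⟨u, hu, v, hv, h1, h2⟩ := hcon s (by omega)
    exact ⟨(u, v), Finset.mem_product.2 ⟨hu, hv⟩, h1, h2⟩
  choose! q hq1 hq2 hq3 using this
  have hcard : (U ×ˢ U).card < (Finset.range (m * m + 1)).card := by
    rw [Finset.card_product, Finset.card_range]
    have := Nat.mul_le_mul hU hU
    omega
  obtain ⟨s, hs, s', hs', hne, heq⟩ := Finset.exists_ne_map_eq_of_card_lt_of_maps_to hcard
    (f := q) (fun s hs => hq1 s hs)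
  have key : ∀ s ∈ Finset.range (m * m + 1), ∀ s' ∈ Finset.range (m * m + 1), s < s' →
      q s ≠ q s' := by
    intro s hs s' hs' hlt he
    have h1 := hq3 s hs
    have h2 := hq2 s' hs'
    rw [he] at h1
    have h3 : g0 * 3 ^ (s + 1) ≤ g0 * 3 ^ s' :=
      Nat.mul_le_mul_left _ (Nat.pow_le_pow_right (by norm_num) hlt)
    omega
  rcases Nat.lt_or_gt_of_ne hne with h | h
  · exact key s hs s' hs' h heq
  · exact key s' hs' s hs h heq.symm

theorem coprime_of_small {B p w w' : ℕ} (hp : p.Prime) (hpB : p ≤ B) (h : w' ≡ w [MOD B !]) :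
    p ∣ w ↔ p ∣ w' :=
  ((h.of_dvd (Nat.dvd_factorial hp.pos hpB)).dvd_iff dvd_rfl).symm

/-- coprimality of `v` with numbers congruent modulo `B !`, when all the relevant primes are small -/
theorem coprime_congr {B s w w' : ℕ} (hs : ∀ p, p.Prime → p ∣ s → p ≤ B)
    (h : w' ≡ w [MOD B !]) : Nat.Coprime s w ↔ Nat.Coprime s w' := by
  rw [← not_iff_not, Nat.Prime.not_coprime_iff_dvd, Nat.Prime.not_coprime_iff_dvd]
  constructor
  · rintro ⟨p, hp, h1, h2⟩
    exact ⟨p, hp, h1, (coprime_of_small hp (hs p hp h1) h).1 h2⟩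
  · rintro ⟨p, hp, h1, h2⟩
    exact ⟨p, hp, h1, (coprime_of_small hp (hs p hp h1) h).2 h2⟩

/-- coprimality of two numbers at small distance depends only on the residues -/
theorem coprime_shift {B w w' c c' : ℕ} (hc : c ≤ B) (hc' : c' ≤ B) (h : w' ≡ w [MOD B !])
    (h1 : 1 < w + c) (h1' : 1 < w' + c) :
    Nat.Coprime (w + c) (w + c') ↔ Nat.Coprime (w' + c) (w' + c') := by
  rcases Nat.lt_trichotomy c c' with hlt | heq | hlt
  · have e1 : w + c' = (w + c) + (c' - c) := by omega
    have e2 : w' + c' = (w' + c) + (c' - c) := by omega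
    rw [e1, e2, Nat.coprime_self_add_right, Nat.coprime_self_add_right]
    have h2 : Nat.Coprime (c' - c) (w + c) ↔ Nat.Coprime (c' - c) (w' + c) := by
      refine coprime_congr (fun p _ hp => ?_) (h.add_right c)
      have := Nat.le_of_dvd (by omega) hp
      omega
    rw [Nat.coprime_comm, h2, Nat.coprime_comm]
  · subst heq
    rw [Nat.coprime_self, Nat.coprime_self]
    omega
  · have e1 : w + c = (w + c') + (c - c') := by omega
    have e2 : w' + c = (w' + c') + (c - c') := by omega
    rw [e1, e2, Nat.coprime_self_add_left, Nat.coprime_self_add_left]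
    refine coprime_congr (fun p _ hp => ?_) (h.add_right c')
    have := Nat.le_of_dvd (by omega) hp
    omega

/-- The cluster lemma. -/
theorem cluster (K m C : ℕ) : ∃ B D t T : ℕ, ∀ y y', T ≤ y → T ≤ y' → y ≡ y' [MOD B !] →
    Rich B D t y' → Trans K m C y y' := by
  classical
  set g0 := K + C + 1 with hg0
  set G1 := g0 * 3 ^ ((m + 2) * (m + 2)) with hG1
  refine ⟨G1 + K + 2, G1 + K, (m + 1) * (G1 + K + 1), 5 * G1 + 2 * K + 2, ?_⟩
  intro y y' hy hy' hmod hrich Z hZ
  set B := G1 + K + 2 with hB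
  set U : Finset ℕ := insert 0 (insert y Z) with hU
  have hUc : U.card ≤ m + 2 := by
    have h1 : U.card ≤ (insert y Z).card + 1 := Finset.card_insert_le _ _
    have h2 : (insert y Z).card ≤ Z.card + 1 := Finset.card_insert_le _ _
    omega
  obtain ⟨s, hs, hgap⟩ := exists_scale U (m + 2) g0 hUc
  set G := g0 * 3 ^ s with hG
  have hG3 : g0 * 3 ^ (s + 1) = 3 * G := by rw [hG, pow_succ]; ring
  rw [hG3] at hgap
  have hGle : G ≤ G1 := Nat.mul_le_mul_left _ (Nat.pow_le_pow_right (by norm_num) hs)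
  have hGge : g0 ≤ G := by
    rw [hG]; exact Nat.le_mul_of_pos_right _ (by positivity)
  have h0U : 0 ∈ U := by simp [hU]
  have hyU : y ∈ U := by simp [hU]
  have hZU : ∀ u ∈ Z, u ∈ U := fun u hu => by simp [hU, hu]
  -- every element of `U` is at most `G` or larger than `3 G`
  have hlarge : ∀ u ∈ U, G < u → 3 * G < u := by
    intro u hu hGu
    have := hgap 0 h0U u hu (by omega)
    omega
  -- representatives
  let A : ℕ → Set ℕ := fun u => {w | w ∈ U ∧ w ≤ u + G ∧ u ≤ w + G}
  let rep : ℕ → ℕ := fun u => sInf (A u)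
  have hrep : ∀ u ∈ U, rep u ∈ U ∧ rep u ≤ u ∧ u ≤ rep u + G := by
    intro u hu
    have hmem : u ∈ A u := ⟨hu, by omega, by omega⟩
    have h1 : rep u ∈ A u := Nat.sInf_mem ⟨u, hmem⟩
    exact ⟨h1.1, Nat.sInf_le hmem, h1.2.2⟩
  have hclose : ∀ u ∈ U, ∀ v ∈ U, u ≤ v + 3 * G → v ≤ u + 3 * G → u ≤ v + G ∧ v ≤ u + G := by
    intro u hu v hv h1 h2
    constructor
    · by_contra hc
      have := hgap v hv u hu (by omega)
      omega
    · by_contra hc
      have := hgap u hu v hv (by omega)
      omega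
  have hrepeq : ∀ u ∈ U, ∀ v ∈ U, u ≤ v + G → v ≤ u + G → rep u = rep v := by
    intro u hu v hv h1 h2
    have : A u = A v := by
      ext w
      constructor
      · rintro ⟨hw, h3, h4⟩
        have := hclose v hv w hw (by omega) (by omega)
        exact ⟨hw, this.2, this.1⟩
      · rintro ⟨hw, h3, h4⟩
        have := hclose u hu w hw (by omega) (by omega)
        exact ⟨hw, this.2, this.1⟩
    show sInf (A u) = sInf (A v)
    rw [this]
  have hrepne : ∀ u ∈ U, ∀ v ∈ U, rep u = rep v → u ≤ v + G ∧ v ≤ u + G := by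
    intro u hu v hv he
    obtain ⟨-, h1, h2⟩ := hrep u hu
    obtain ⟨-, h3, h4⟩ := hrep v hv
    omega
  have hreplarge : ∀ u ∈ U, G < u → 3 * G < rep u := by
    intro u hu hGu
    obtain ⟨h1, h2, h3⟩ := hrep u hu
    apply hlarge _ h1
    have := hlarge u hu hGu
    omega
  have hyG : G < y := by omega
  -- the list of the other representatives
  set R : Finset ℕ := (((insert y Z).filter (fun u => G < u)).image rep).erase (rep y) with hR
  have hRc : R.card ≤ m := by
    have h1 : (((insert y Z).filter (fun u => G < u)).image rep).card ≤ (insert y Z).card :=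
      Finset.card_image_le.trans (Finset.card_filter_le _ _)
    have h2 : (insert y Z).card ≤ Z.card + 1 := Finset.card_insert_le _ _
    have h3 : rep y ∈ ((insert y Z).filter (fun u => G < u)).image rep :=
      Finset.mem_image_of_mem _ (Finset.mem_filter.2 ⟨Finset.mem_insert_self _ _, hyG⟩)
    rw [hR, Finset.card_erase_of_mem h3]
    omega
  have hmemR : ∀ u ∈ U, G < u → rep u ∈ insert (rep y) R := by
    intro u hu hGu
    by_cases he : rep u = rep y
    · rw [he]; exact Finset.mem_insert_self _ _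
    · refine Finset.mem_insert_of_mem (Finset.mem_erase.2 ⟨he, Finset.mem_image_of_mem _ ?_⟩)
      refine Finset.mem_filter.2 ⟨?_, hGu⟩
      rw [hU, Finset.mem_insert] at hu
      rcases hu with hu | hu
      · omega
      · exact hu
  obtain ⟨-, hry1, hry2⟩ := hrep y hyU
  -- the shifted value for the representative of `y`
  set y0 := y' - (y - rep y) with hy0
  have hy0' : y0 + (y - rep y) = y' := by omega
  have hmod0 : y0 ≡ rep y [MOD B !] := by
    have h1 : y0 + (y - rep y) ≡ rep y + (y - rep y) [MOD B !] := by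
      rw [hy0', show rep y + (y - rep y) = y by omega]
      exact hmod.symm
    exact Nat.ModEq.add_right_cancel' _ h1
  obtain ⟨F, F0, F1, F2⟩ := ext_finset m (G + K) B (by omega) (rep y) R hRc y0 hmod0 (by omega)
    (by
      intro x hx
      obtain ⟨P, hP1, hP2⟩ := hrich (y0 + x) (by omega) (by omega)
      refine ⟨P, le_trans ?_ hP1, hP2⟩
      exact Nat.mul_le_mul_left _ (by omega))
  let f : ℕ → ℕ := fun u => if u ≤ G then u else F (rep u) + (u - rep u)
  have hfs : ∀ u, u ≤ G → f u = u := fun u hu => if_pos hu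
  have hfl : ∀ u, G < u → f u = F (rep u) + (u - rep u) := fun u hu => if_neg (by omega)
  refine ⟨f, ?_, ?_, ?_⟩
  · rw [hfl y hyG, F0]; exact hy0'
  · intro c hc
    exact hfs c (by omega)
  · -- the similarity
    have hcases : ∀ u ∈ ({u | u ∈ Z} ∪ {y} ∪ {u | u ≤ C} : Set ℕ), u ≤ G ∨ (u ∈ U ∧ G < u) := by
      rintro u ((hu | hu) | hu)
      · rcases Nat.le_or_ge u G with h | h
        · exact Or.inl h
        · rcases Nat.eq_or_lt_of_le h with h' | h'
          · exact Or.inl h'.ge
          · exact Or.inr ⟨hZU u hu, h'⟩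
      · rw [Set.mem_singleton_iff] at hu
        subst hu
        exact Or.inr ⟨hyU, hyG⟩
      · left
        have : u ≤ C := hu
        omega
    -- facts on large elements
    have hmodf : ∀ u ∈ U, G < u → f u ≡ u [MOD B !] ∧ 3 * G + K + 1 < f u := by
      intro u hu hGu
      have h1 := F1 _ (hmemR u hu hGu)
      obtain ⟨-, h2, h3⟩ := hrep u hu
      refine ⟨?_, ?_⟩
      · rw [hfl u hGu]
        have := h1.1.add_right (u - rep u)
        rwa [show rep u + (u - rep u) = u by omega] at this
      · rw [hfl u hGu]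
        have := h1.2
        omega
    -- small against large
    have hSL : ∀ c, c ≤ G → ∀ u ∈ U, G < u → ∀ a ≤ K, ∀ a' ≤ K,
        (c + a = u + a' ↔ f c + a = f u + a') ∧
        (Nat.Coprime (c + a) (u + a') ↔ Nat.Coprime (f c + a) (f u + a')) := by
      intro c hc u hu hGu a ha a' ha'
      obtain ⟨h1, h2⟩ := hmodf u hu hGu
      have h3 := hlarge u hu hGu
      rw [hfs c hc]
      refine ⟨⟨fun h => by omega, fun h => by omega⟩, ?_⟩
      rcases Nat.eq_zero_or_pos (c + a) with h0 | h0
      · rw [h0, Nat.coprime_zero_left, Nat.coprime_zero_left]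
        omega
      · refine coprime_congr (fun p _ hp => ?_) (h1.add_right a')
        have := Nat.le_of_dvd h0 hp
        omega
    intro u hu v hv a ha a' ha'
    rcases hcases u hu with hu1 | ⟨hu1, hu2⟩
    · rcases hcases v hv with hv1 | ⟨hv1, hv2⟩
      · rw [hfs u hu1, hfs v hv1]
        exact ⟨Iff.rfl, Iff.rfl⟩
      · exact hSL u hu1 v hv1 hv2 a ha a' ha'
    · rcases hcases v hv with hv1 | ⟨hv1, hv2⟩
      · obtain ⟨h1, h2⟩ := hSL v hv1 u hu1 hu2 a' ha' a ha
        refine ⟨⟨fun h => (h1.1 h.symm).symm, fun h => (h1.2 h.symm).symm⟩, ?_⟩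
        rw [Nat.coprime_comm, h2, Nat.coprime_comm]
      · -- both large
        obtain ⟨hmu, hbu⟩ := hmodf u hu1 hu2
        obtain ⟨hmv, hbv⟩ := hmodf v hv1 hv2
        have hu3 := hlarge u hu1 hu2
        have hv3 := hlarge v hv1 hv2
        obtain ⟨-, ru1, ru2⟩ := hrep u hu1
        obtain ⟨-, rv1, rv2⟩ := hrep v hv1
        by_cases he : rep u = rep v
        · -- the same cluster
          have efu : f u = F (rep u) + (u - rep u) := hfl u hu2
          have efv : f v = F (rep u) + (v - rep u) := by rw [he]; exact hfl v hv2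
          have hF := F1 _ (hmemR u hu1 hu2)
          rw [← he] at rv1 rv2
          refine ⟨⟨fun h => by omega, fun h => by omega⟩, ?_⟩
          have h1 := coprime_shift (B := B) (w := rep u) (w' := F (rep u)) (c := u - rep u + a)
            (c' := v - rep u + a') (by omega) (by omega) hF.1 (by omega) (by omega)
          rw [show rep u + (u - rep u + a) = u + a by omega,
            show rep u + (v - rep u + a') = v + a' by omega,
            show F (rep u) + (u - rep u + a) = f u + a by omega,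
            show F (rep u) + (v - rep u + a') = f v + a' by omega] at h1
          exact h1
        · -- different clusters
          have hFF := F2 _ (hmemR u hu1 hu2) _ (hmemR v hv1 hv2) he
          have efu : f u = F (rep u) + (u - rep u) := hfl u hu2
          have efv : f v = F (rep v) + (v - rep v) := hfl v hv2
          have hfar : ¬ (u ≤ v + 3 * G ∧ v ≤ u + 3 * G) := by
            rintro ⟨h1, h2⟩
            have := hclose u hu1 v hv1 h1 h2
            exact he (hrepeq u hu1 v hv1 this.1 this.2)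
          refine ⟨⟨fun h => ?_, fun h => ?_⟩, ?_⟩
          · exfalso; apply hfar; constructor <;> omega
          · exfalso
            rcases hFF.1 with h1 | h1 <;> omega
          · have h1 := hFF.2 (u - rep u + a) (by omega) (v - rep v + a') (by omega)
            rw [show rep u + (u - rep u + a) = u + a by omega,
              show rep v + (v - rep v + a') = v + a' by omega,
              show F (rep u) + (u - rep u + a) = f u + a by omega,
              show F (rep v) + (v - rep v + a') = f v + a' by omega] at h1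
            exact h1

end Pool.Agent.SqEx
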