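import Mathlib

/-!
# Extending one coordinate of a coprimality pattern

Given numbers `b 0, ..., b n` and a number `y'` congruent to `b 0` modulo `B!` such that each of
`y', ..., y' + W` has many prime divisors above `B`, there are numbers `b' 0 = y', b' 1, ..., b' n`
such that the coprimality relations between the numbers `b i + x` and `b j + x'` (`x, x' ≤ W`) are
the same as for `b'`.
-/

set_option autoImplicit false

namespace Pool.Agent.SqEx

open Nat

/-- Chinese remainder theorem in the form used below. -/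
theorem crt_fin (T : Finset ℕ) (hT : ∀ p ∈ T, p.Prime) (r : ℕ → ℕ) :
    ∃ z, ∀ p ∈ T, z ≡ r p [MOD p] := by
  classical
  have hpp : Set.Pairwise (T : Set ℕ) (Function.onFun Nat.Coprime (fun p : ℕ => p)) := by
    intro p hp q hq hpq
    exact (Nat.coprime_primes (hT p hp) (hT q hq)).2 hpq
  obtain ⟨z, hz⟩ := Nat.chineseRemainderOfFinset r (fun p => p) T
    (fun p hp => (hT p hp).ne_zero) hpp
  exact ⟨z, hz⟩

/-- Chinese remainder theorem with a prescribed residue modulo `B !`, a lower bound, and residue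
`1` at all the other primes in `(B, L]`. -/
theorem crt (B : ℕ) (T : Finset ℕ) (hT : ∀ p ∈ T, p.Prime ∧ B < p) (r : ℕ → ℕ) (c L : ℕ) :
    ∃ z, L < z ∧ z ≡ c [MOD B !] ∧ (∀ p ∈ T, z ≡ r p [MOD p]) ∧
      ∀ p, p.Prime → B < p → p ≤ L → p ∉ T → z ≡ 1 [MOD p] := by
  classical
  set T' : Finset ℕ := T ∪ (Finset.range (L + 1)).filter (fun p => p.Prime ∧ B < p) with hT'
  have hp' : ∀ p ∈ T', p.Prime ∧ B < p := by
    intro p hp
    rw [hT', Finset.mem_union, Finset.mem_filter] at hp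
    rcases hp with hp | hp
    · exact hT p hp
    · exact hp.2
  obtain ⟨z1, hz1⟩ := crt_fin T' (fun p hp => (hp' p hp).1) (fun p => if p ∈ T then r p else 1)
  have hcop : Nat.Coprime (B !) (∏ p ∈ T', p) := by
    refine Nat.Coprime.prod_right fun p hp => ?_
    exact ((Nat.Prime.coprime_iff_not_dvd (hp' p hp).1).2 fun h =>
      absurd (((hp' p hp).1.dvd_factorial).1 h) (by have := (hp' p hp).2; omega)).symm
  obtain ⟨z2, hz2, hz2'⟩ := Nat.chineseRemainder hcop c z1
  set Q := B ! * ∏ p ∈ T', p with hQ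
  have hQ0 : 0 < Q :=
    Nat.mul_pos (Nat.factorial_pos B) (Finset.prod_pos fun p hp => (hp' p hp).1.pos)
  refine ⟨z2 + Q * (L + 1), ?_, ?_, ?_, ?_⟩
  · nlinarith
  · have h1 : Q * (L + 1) ≡ 0 [MOD B !] :=
      (Nat.modEq_zero_iff_dvd).2 ⟨(∏ p ∈ T', p) * (L + 1), by rw [hQ]; ring⟩
    simpa using hz2.add h1
  · intro p hp
    have hpT : p ∈ T' := by rw [hT']; exact Finset.mem_union_left _ hp
    have h2 : p ∣ ∏ p ∈ T', p := Finset.dvd_prod_of_mem _ hpT
    have h1 : Q * (L + 1) ≡ 0 [MOD p] :=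
      (Nat.modEq_zero_iff_dvd).2 (Dvd.dvd.mul_right (Dvd.dvd.mul_left h2 _) _)
    have h3 : z2 ≡ r p [MOD p] := by
      have := (hz2'.of_dvd h2).trans (hz1 p hpT)
      simpa [hp] using this
    simpa using h3.add h1
  · intro p hp1 hp2 hp3 hp4
    have hpT : p ∈ T' := by
      rw [hT']
      refine Finset.mem_union_right _ (Finset.mem_filter.2 ⟨Finset.mem_range.2 (by omega), hp1, hp2⟩)
    have h2 : p ∣ ∏ p ∈ T', p := Finset.dvd_prod_of_mem _ hpT
    have h1 : Q * (L + 1) ≡ 0 [MOD p] :=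
      (Nat.modEq_zero_iff_dvd).2 (Dvd.dvd.mul_right (Dvd.dvd.mul_left h2 _) _)
    have h3 : z2 ≡ 1 [MOD p] := by
      have := (hz2'.of_dvd h2).trans (hz1 p hpT)
      simpa [hp4] using this
    simpa using h3.add h1

theorem not_dvd_of_one {B W p z x : ℕ} (hB : W + 2 ≤ B) (hp : B < p) (hz : z ≡ 1 [MOD p])
    (hx : x ≤ W) : ¬ p ∣ z + x := by
  intro h
  have h1 : z + x ≡ 1 + x [MOD p] := hz.add_right x
  have h2 : p ∣ 1 + x := (h1.dvd_iff dvd_rfl).1 h
  have := Nat.le_of_dvd (by omega) h2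
  omega

theorem eq_of_dvd {B W p z x x' : ℕ} (hB : W + 2 ≤ B) (hp : B < p) (hx : x ≤ W) (hx' : x' ≤ W)
    (h : p ∣ z + x) (h' : p ∣ z + x') : x = x' := by
  rcases Nat.lt_trichotomy x x' with hlt | heq | hlt
  · have h1 : p ∣ (z + x') - (z + x) := Nat.dvd_sub h' h
    have := Nat.le_of_dvd (by omega) h1
    omega
  · exact heq
  · have h1 : p ∣ (z + x) - (z + x') := Nat.dvd_sub h h'
    have := Nat.le_of_dvd (by omega) h1
    omega

/-- the index type of the designated primes -/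
abbrev Ix := ℕ × ℕ × ℕ × ℕ

/-- valid indices -/
def Vld (n W : ℕ) (q : Ix) : Prop := q.1 < q.2.2.1 ∧ q.2.2.1 ≤ n ∧ q.2.1 ≤ W ∧ q.2.2.2 ≤ W

theorem vld_finite (n W : ℕ) : {q : Ix | Vld n W q}.Finite := by
  refine Set.Finite.subset
    (((Finset.range (n + 1)) ×ˢ (Finset.range (W + 1)) ×ˢ (Finset.range (n + 1)) ×ˢ
      (Finset.range (W + 1)) : Finset Ix).finite_toSet) ?_
  rintro ⟨i, x, j, x'⟩ ⟨h1, h2, h3, h4⟩
  simp only [Finset.coe_product, Set.mem_prod, Finset.mem_coe, Finset.mem_range] at *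
  omega

/-- The designated primes. -/
theorem exists_designated (n W B y' : ℕ) (hB : W + 2 ≤ B) (hy' : 0 < y')
    (hP : ∀ x ≤ W, ∃ P : Finset ℕ, (n + 1) * (W + 1) ≤ P.card ∧
      ∀ p ∈ P, p.Prime ∧ B < p ∧ p ∣ y' + x) :
    ∃ Q : Ix → ℕ, Set.InjOn Q {q | Vld n W q} ∧ (∀ q, Vld n W q → (Q q).Prime ∧ B < Q q) ∧
      (∀ q, Vld n W q → q.1 = 0 → Q q ∣ y' + q.2.1) ∧
      (∀ q, Vld n W q → q.1 ≠ 0 → y' + W < Q q) := by
  classical
  have hP' : ∀ x ≤ W, ∃ e : Fin (n + 1) × Fin (W + 1) → ℕ, Function.Injective e ∧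
      ∀ a, (e a).Prime ∧ B < e a ∧ e a ∣ y' + x := by
    intro x hx
    obtain ⟨P, hc, hP⟩ := hP x hx
    have : Fintype.card (Fin (n + 1) × Fin (W + 1)) ≤ P.card := by simpa using hc
    obtain ⟨f, hf⟩ := Function.Embedding.exists_of_card_le_finset this
    exact ⟨f, f.injective, fun a => hP _ (hf (Set.mem_range_self a))⟩
  choose! e he1 he2 using hP'
  set m0 := y' + W + B with hm0
  refine ⟨fun q => if q.1 = 0 then e q.2.1 (Fin.ofNat (n + 1) q.2.2.1, Fin.ofNat (W + 1) q.2.2.2)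
    else Nat.nth Nat.Prime (m0 + Nat.pair (Nat.pair q.1 q.2.1) (Nat.pair q.2.2.1 q.2.2.2)),
    ?_, ?_, ?_, ?_⟩
  · rintro ⟨i, x, j, x'⟩ ⟨h1, h2, h3, h4⟩ ⟨i₂, x₂, j₂, x₂'⟩ ⟨k1, k2, k3, k4⟩ heq
    simp only at h1 h2 h3 h4 k1 k2 k3 k4 heq
    by_cases hi : i = 0
    · by_cases hi2 : i₂ = 0
      · rw [if_pos hi, if_pos hi2] at heq
        have hxx : x = x₂ := by
          have d1 := (he2 x h3 (Fin.ofNat (n + 1) j, Fin.ofNat (W + 1) x')).2.2
          have d2 := (he2 x₂ k3 (Fin.ofNat (n + 1) j₂, Fin.ofNat (W + 1) x₂')).2.2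
          rw [← heq] at d2
          exact eq_of_dvd hB (he2 x h3 _).2.1 h3 k3 d1 d2
        subst hxx
        have := he1 x h3 heq
        simp only [Prod.mk.injEq, Fin.ext_iff, Fin.val_ofNat] at this
        rw [Nat.mod_eq_of_lt (by omega), Nat.mod_eq_of_lt (by omega), Nat.mod_eq_of_lt (by omega),
          Nat.mod_eq_of_lt (by omega)] at this
        simp only [Prod.mk.injEq]
        exact ⟨by omega, trivial, this.1, this.2⟩
      · exfalso
        rw [if_pos hi, if_neg hi2] at heq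
        have d1 := (he2 x h3 (Fin.ofNat (n + 1) j, Fin.ofNat (W + 1) x')).2.2
        have := Nat.le_of_dvd (by omega) d1
        have := Nat.add_two_le_nth_prime
          (m0 + Nat.pair (Nat.pair i₂ x₂) (Nat.pair j₂ x₂'))
        omega
    · by_cases hi2 : i₂ = 0
      · exfalso
        rw [if_neg hi, if_pos hi2] at heq
        have d1 := (he2 x₂ k3 (Fin.ofNat (n + 1) j₂, Fin.ofNat (W + 1) x₂')).2.2
        have := Nat.le_of_dvd (by omega) d1
        have := Nat.add_two_le_nth_prime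
          (m0 + Nat.pair (Nat.pair i x) (Nat.pair j x'))
        omega
      · rw [if_neg hi, if_neg hi2] at heq
        have := Nat.nth_injective Nat.infinite_setOfPred_prime heq
        have h5 : Nat.pair (Nat.pair i x) (Nat.pair j x') =
          Nat.pair (Nat.pair i₂ x₂) (Nat.pair j₂ x₂') := by omega
        simp only [Nat.pair_eq_pair] at h5
        simp only [Prod.mk.injEq]
        tauto
  · rintro ⟨i, x, j, x'⟩ ⟨h1, h2, h3, h4⟩
    simp only at h1 h2 h3 h4 ⊢
    split_ifs with hi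
    · exact ⟨(he2 x h3 _).1, (he2 x h3 _).2.1⟩
    · refine ⟨Nat.prime_nth_prime _, ?_⟩
      have := Nat.add_two_le_nth_prime
          (m0 + Nat.pair (Nat.pair i x) (Nat.pair j x'))
      omega
  · rintro ⟨i, x, j, x'⟩ ⟨h1, h2, h3, h4⟩ hi
    simp only at h1 h2 h3 h4 hi ⊢
    rw [if_pos hi]
    exact (he2 x h3 _).2.2
  · rintro ⟨i, x, j, x'⟩ ⟨h1, h2, h3, h4⟩ hi
    simp only at h1 h2 h3 h4 hi ⊢
    rw [if_neg hi]
    have := Nat.add_two_le_nth_prime
          (m0 + Nat.pair (Nat.pair i x) (Nat.pair j x'))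
    omega

/-- The extension lemma. -/
theorem ext_coord (n W B : ℕ) (hB : W + 2 ≤ B) (b : ℕ → ℕ) (y' : ℕ) (hy : y' ≡ b 0 [MOD B !])
    (hy' : 0 < y')
    (hP : ∀ x ≤ W, ∃ P : Finset ℕ, (n + 1) * (W + 1) ≤ P.card ∧
      ∀ p ∈ P, p.Prime ∧ B < p ∧ p ∣ y' + x) :
    ∃ b' : ℕ → ℕ, b' 0 = y' ∧ (∀ i, i ≤ n → b' i ≡ b i [MOD B !]) ∧
      (∀ i j, i < j → b' i + W < b' j) ∧
      ∀ i j, i < j → j ≤ n → ∀ x ≤ W, ∀ x' ≤ W,
        (Nat.Coprime (b i + x) (b j + x') ↔ Nat.Coprime (b' i + x) (b' j + x')) := by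
  classical
  obtain ⟨Q, hinj, hQp, hQ0, hQ1⟩ := exists_designated n W B y' hB hy' hP
  set V : Finset Ix := (vld_finite n W).toFinset with hV
  have hmem : ∀ q, q ∈ V ↔ Vld n W q := fun q => by simp [hV]
  set T : Finset ℕ := V.image Q with hT
  have hTp : ∀ p ∈ T, p.Prime ∧ B < p := by
    intro p hp
    rw [hT, Finset.mem_image] at hp
    obtain ⟨q, hq, rfl⟩ := hp
    exact hQp q ((hmem q).1 hq)
  -- residues
  let R : ℕ → Ix → ℕ := fun k q =>
    if k = q.1 then Q q - q.2.1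
    else if k = q.2.2.1 ∧ ¬ Nat.Coprime (b q.1 + q.2.1) (b q.2.2.1 + q.2.2.2) then
      Q q - q.2.2.2 else 1
  have hex : ∀ k L, ∃ z, L < z ∧ z ≡ b k [MOD B !] ∧
      (∀ p ∈ T, z ≡ R k (Function.invFunOn Q {q | Vld n W q} p) [MOD p]) ∧
      ∀ p, p.Prime → B < p → p ≤ L → p ∉ T → z ≡ 1 [MOD p] := fun k L =>
    crt B T hTp (fun p => R k (Function.invFunOn Q {q | Vld n W q} p)) (b k) L
  choose z hz1 hz2 hz3 hz4 using hex
  let b' : ℕ → ℕ := fun k => Nat.rec y' (fun k c => z (k + 1) (c + W)) k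
  have b'0 : b' 0 = y' := rfl
  have b's : ∀ k, b' (k + 1) = z (k + 1) (b' k + W) := fun k => rfl
  have hlt1 : ∀ k, b' k + W < b' (k + 1) := fun k => by rw [b's]; exact hz1 _ _
  have hmono : StrictMono b' := strictMono_nat_of_lt_succ fun k => by have := hlt1 k; omega
  have hlt : ∀ i j, i < j → b' i + W < b' j := by
    intro i j hij
    calc b' i + W < b' (i + 1) := hlt1 i
      _ ≤ b' j := hmono.monotone hij
  -- facts on residues at designated primes
  have hres : ∀ k q, Vld n W q → b' (k + 1) ≡ R (k + 1) q [MOD Q q] := by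
    intro k q hq
    have h1 : Q q ∈ T := by
      rw [hT]; exact Finset.mem_image_of_mem _ ((hmem q).2 hq)
    have h2 := hz3 (k + 1) (b' k + W) (Q q) h1
    rw [hinj.leftInvOn_invFunOn (show q ∈ {q | Vld n W q} from hq)] at h2
    rw [b's]
    exact h2
  have F1 : ∀ k q, Vld n W q → k = q.1 → Q q ∣ b' k + q.2.1 := by
    intro k q hq hk
    rcases k with _ | k
    · rw [b'0]; exact hQ0 q hq hk.symm
    · have h1 := hres k q hq
      have h2 : R (k + 1) q = Q q - q.2.1 := if_pos hk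
      rw [h2] at h1
      have h3 : b' (k + 1) + q.2.1 ≡ Q q - q.2.1 + q.2.1 [MOD Q q] := h1.add_right _
      have h4 : q.2.1 ≤ Q q := by
        have := (hQp q hq).2
        have := hq.2.2.1
        omega
      rw [Nat.sub_add_cancel h4] at h3
      exact (h3.dvd_iff dvd_rfl).2 dvd_rfl
  have F2 : ∀ k q, Vld n W q → k = q.2.2.1 →
      ¬ Nat.Coprime (b q.1 + q.2.1) (b q.2.2.1 + q.2.2.2) → Q q ∣ b' k + q.2.2.2 := by
    intro k q hq hk hc
    rcases k with _ | k
    · have := hq.1; omega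
    · have h1 := hres k q hq
      have h2 : R (k + 1) q = Q q - q.2.2.2 := by
        have hne : k + 1 ≠ q.1 := by have := hq.1; omega
        show (if k + 1 = q.1 then _ else _) = _
        rw [if_neg hne, if_pos ⟨hk, hc⟩]
      rw [h2] at h1
      have h3 : b' (k + 1) + q.2.2.2 ≡ Q q - q.2.2.2 + q.2.2.2 [MOD Q q] := h1.add_right _
      have h4 : q.2.2.2 ≤ Q q := by
        have := (hQp q hq).2
        have := hq.2.2.2
        omega
      rw [Nat.sub_add_cancel h4] at h3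
      exact (h3.dvd_iff dvd_rfl).2 dvd_rfl
  have F3 : ∀ k q, Vld n W q → k ≠ q.1 →
      (k ≠ q.2.2.1 ∨ Nat.Coprime (b q.1 + q.2.1) (b q.2.2.1 + q.2.2.2)) →
      ∀ x ≤ W, ¬ Q q ∣ b' k + x := by
    intro k q hq hk hc x hx
    rcases k with _ | k
    · have h0 := hQ1 q hq (Ne.symm hk)
      intro hd
      rw [b'0] at hd
      have := Nat.le_of_dvd (by omega) hd
      omega
    · have h1 := hres k q hq
      have h2 : R (k + 1) q = 1 := by
        show (if k + 1 = q.1 then _ else _) = _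
        rw [if_neg hk, if_neg]
        rintro ⟨h3, h4⟩
        rcases hc with hc | hc
        · exact hc h3
        · exact h4 hc
      rw [h2] at h1
      exact not_dvd_of_one hB (hQp q hq).2 h1 hx
  have F4 : ∀ k p, p.Prime → B < p → p ≤ b' k + W → p ∉ T → ∀ x ≤ W, ¬ p ∣ b' (k + 1) + x := by
    intro k p hp1 hp2 hp3 hp4 x hx
    have h1 := hz4 (k + 1) (b' k + W) p hp1 hp2 hp3 hp4
    rw [← b's] at h1
    exact not_dvd_of_one hB hp2 h1 hx
  have hcong : ∀ i, b' i ≡ b i [MOD B !] := by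
    intro i
    rcases i with _ | i
    · rw [b'0]; exact hy
    · rw [b's]; exact hz2 _ _
  refine ⟨b', b'0, fun i _ => hcong i, hlt, ?_⟩
  intro i j hij hj x hx x' hx'
  have hsmall : ∀ p, p.Prime → p ≤ B → ∀ k c, (p ∣ b k + c ↔ p ∣ b' k + c) := by
    intro p hp hpB k c
    have h1 : b' k ≡ b k [MOD p] := (hcong k).of_dvd (Nat.dvd_factorial hp.pos hpB)
    exact ((h1.add_right c).dvd_iff dvd_rfl).symm
  constructor
  · -- coprime for `b` implies coprime for `b'`
    intro hc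
    by_contra hnc
    obtain ⟨p, hp, hp1, hp2⟩ := Nat.Prime.not_coprime_iff_dvd.1 hnc
    rcases le_or_gt p B with hpB | hpB
    · exact (Nat.Prime.not_coprime_iff_dvd.2
        ⟨p, hp, (hsmall p hp hpB i x).2 hp1, (hsmall p hp hpB j x').2 hp2⟩) hc
    · obtain ⟨j, rfl⟩ : ∃ j', j = j' + 1 := ⟨j - 1, by omega⟩
      have hple : p ≤ b' j + W := by
        have h0 : 0 < b' i + x := by
          have : b' 0 ≤ b' i := hmono.monotone (Nat.zero_le i)
          rw [b'0] at this; omega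
        have h1 := Nat.le_of_dvd h0 hp1
        have h2 : b' i ≤ b' j := hmono.monotone (by omega)
        omega
      by_cases hpT : p ∈ T
      · rw [hT, Finset.mem_image] at hpT
        obtain ⟨q, hq, rfl⟩ := hpT
        rw [hmem] at hq
        -- `j + 1` is one of the two coordinates of `q`
        by_cases hj1 : j + 1 = q.1
        · -- then `i` is below both coordinates
          exact F3 i q hq (by omega) (Or.inl (by have := hq.1; omega)) x hx hp1
        · by_cases hj2 : j + 1 ≠ q.2.2.1 ∨ Nat.Coprime (b q.1 + q.2.1) (b q.2.2.1 + q.2.2.2)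
          · exact F3 (j + 1) q hq hj1 hj2 x' hx' hp2
          · push Not at hj2
            obtain ⟨hj3, hj4⟩ := hj2
            have hx2 : x' = q.2.2.2 :=
              eq_of_dvd hB hpB hx' hq.2.2.2 hp2 (F2 (j + 1) q hq hj3 hj4)
            by_cases hi1 : i = q.1
            · have hx1 : x = q.2.1 := eq_of_dvd hB hpB hx hq.2.2.1 hp1 (F1 i q hq hi1)
              rw [hi1, hx1, hj3, hx2] at hc
              exact hj4 hc
            · exact F3 i q hq hi1 (Or.inl (by omega)) x hx hp1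
      · exact F4 j p hp hpB hple hpT x' hx' hp2
  · intro hc
    by_contra hnc
    have hq : Vld n W (i, x, j, x') := ⟨hij, hj, hx, hx'⟩
    have h1 := F1 i (i, x, j, x') hq rfl
    have h2 := F2 j (i, x, j, x') hq rfl hnc
    exact (Nat.Prime.not_coprime_iff_dvd.2 ⟨_, (hQp _ hq).1, h1, h2⟩) hc

end Pool.Agent.SqEx
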